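import Pool.Agent.helper62.HF.SpecV
import Pool.Agent.helper41.MS.HD2

/-! Row hf:CTG (MP_07c750_an): counting cells. -/

set_option autoImplicit false

open scoped MatrixGroups ContDiff Topology UpperHalfPlane ComplexConjugate
open UpperHalfPlane MeasureTheory Filter Set

namespace Pool.Agent.HF

open Pool.Agent.RS Pool.Agent.MS

theorem CTG_mul (A B : SL(2, ℝ)) (i j : Fin 2) : (A * B).1 i j = A.1 i 0 * B.1 0 j + A.1 i 1 * B.1 1 j := by
  change (A.1 * B.1) i j = _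
  rw [Matrix.mul_apply, Fin.sum_univ_two]

theorem CTG_ent (h : SL(2, ℝ)) (s x : ℝ) (i : Fin 2) : (h * lM s * nM x).1 i 0 = h.1 i 0 + h.1 i 1 * s ∧
    (h * lM s * nM x).1 i 1 = (h.1 i 0 + h.1 i 1 * s) * x + h.1 i 1 := by
  have l1 : (lM s).1 0 0 = 1 := rfl
  have l2 : (lM s).1 0 1 = 0 := rfl
  have l3 : (lM s).1 1 0 = s := rfl
  have l4 : (lM s).1 1 1 = 1 := rfl
  have n1 : (nM x).1 0 0 = 1 := rfl
  have n2 : (nM x).1 0 1 = x := rfl
  have n3 : (nM x).1 1 0 = 0 := rfl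
  have n4 : (nM x).1 1 1 = 1 := rfl
  constructor
  · rw [CTG_mul, CTG_mul, CTG_mul, l1, l2, l3, l4, n1, n3]
    ring
  · rw [CTG_mul, CTG_mul, CTG_mul, l1, l2, l3, l4, n2, n4]
    ring

theorem CTG_card (S : Finset ℤ) (D : ℝ) (hD : 0 ≤ D) (h : ∀ i ∈ S, ∀ j ∈ S, |(i : ℝ) - j| ≤ D) : (S.card : ℝ) ≤ D + 1 := by
  rcases S.eq_empty_or_nonempty with he | hne
  · rw [he, Finset.card_empty, Nat.cast_zero]
    linarith
  · have h1 : S ⊆ Finset.Icc (S.min' hne) (S.max' hne) := fun i hi =>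
      Finset.mem_Icc.2 ⟨S.min'_le i hi, S.le_max' i hi⟩
    have h2 := Finset.card_le_card h1
    rw [Int.card_Icc] at h2
    have h3 := h _ (S.max'_mem hne) _ (S.min'_mem hne)
    have h4 : S.min' hne ≤ S.max' hne := S.min'_le_max' hne
    have h5 : ((S.card : ℕ) : ℤ) ≤ S.max' hne + 1 - S.min' hne := by
      have : ((S.max' hne + 1 - S.min' hne).toNat : ℤ) = S.max' hne + 1 - S.min' hne := Int.toNat_of_nonneg (by omega)
      rw [← this]
      exact_mod_cast h2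
    have h6 : ((S.card : ℕ) : ℝ) ≤ (S.max' hne : ℝ) + 1 - (S.min' hne : ℝ) := by exact_mod_cast h5
    have h7 := le_abs_self ((S.max' hne : ℝ) - (S.min' hne : ℝ))
    linarith

theorem CTG_abs {q00 b : ℝ} (hb : b ≤ 1 / 8) (h : |q00 - 1| ≤ b) : 7 / 8 ≤ q00 ∧ |q00| ≤ 9 / 8 := by
  have h1 := abs_le.1 h
  exact ⟨by linarith [h1.1], abs_le.2 ⟨by linarith [h1.1], by linarith [h1.2]⟩⟩

theorem CTG_eight (h : SL(2, ℝ)) (s x b v : ℝ) (hb : 0 < b) (hb8 : b ≤ 1 / 8) (hv : 0 < v) (hv1 : v ≤ 1) (hs : |s| ≤ 1) (hx : |x| ≤ 1)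
    (hq : bq b (b * v) b (h * lM s * nM x)) : ∀ i j, |h.1 i j| ≤ 8 := by
  obtain ⟨q1, q2, q3, q4⟩ := hq
  have hbv : b * v ≤ 1 / 8 := by nlinarith
  have e : ∀ i : Fin 2, |(h * lM s * nM x).1 i 0| ≤ 9 / 8 ∧ |(h * lM s * nM x).1 i 1| ≤ 9 / 8 := by
    intro i
    fin_cases i
    · exact ⟨(CTG_abs hb8 q1).2, q3.trans (by linarith)⟩
    · exact ⟨q4.trans (by linarith), (CTG_abs hb8 q2).2⟩
  have e1 : ∀ i : Fin 2, |h.1 i 1| ≤ 9 / 4 := by
    intro i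
    obtain ⟨a1, a2⟩ := CTG_ent h s x i
    obtain ⟨b1, b2⟩ := e i
    have : h.1 i 1 = (h * lM s * nM x).1 i 1 - (h * lM s * nM x).1 i 0 * x := by
      rw [a1, a2]
      ring
    rw [this]
    refine (abs_sub _ _).trans ?_
    rw [abs_mul]
    have : |(h * lM s * nM x).1 i 0| * |x| ≤ 9 / 8 * 1 := mul_le_mul b1 hx (abs_nonneg _) (by norm_num)
    linarith
  have e0 : ∀ i : Fin 2, |h.1 i 0| ≤ 8 := by
    intro i
    obtain ⟨a1, a2⟩ := CTG_ent h s x i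
    obtain ⟨b1, b2⟩ := e i
    have : h.1 i 0 = (h * lM s * nM x).1 i 0 - h.1 i 1 * s := by
      rw [a1]
      ring
    rw [this]
    refine (abs_sub _ _).trans ?_
    rw [abs_mul]
    have : |h.1 i 1| * |s| ≤ 9 / 4 * 1 := mul_le_mul (e1 i) hs (abs_nonneg _) (by norm_num)
    linarith
  intro i j
  fin_cases j
  · exact e0 i
  · exact (e1 i).trans (by norm_num)

theorem CTG_dist (h : SL(2, ℝ)) (s s' x x' b v l : ℝ) (hb : 0 < b) (hb8 : b ≤ 1 / 8) (hv : 0 < v) (hv1 : v ≤ 1) (hx : |x| ≤ 1)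
    (hx' : |x'| ≤ 1) (hs : |s' - s| ≤ l) (hl : l ≤ b * v / 4) (hq : bq b (b * v) b (h * lM s * nM x))
    (hq' : bq b (b * v) b (h * lM s' * nM x')) : |x - x'| ≤ 4 * b * v := by
  obtain ⟨q1, q2, q3, q4⟩ := hq
  obtain ⟨r1, r2, r3, r4⟩ := hq'
  have hbv : b * v ≤ 1 / 8 := by nlinarith
  have hbv0 : 0 < b * v := mul_pos hb hv
  obtain ⟨a1, a2⟩ := CTG_ent h s x 0
  obtain ⟨c1, c2⟩ := CTG_ent h s' x' 0
  set Q := (h * lM s * nM x).1 0 0 with hQ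
  set R := (h * lM s * nM x).1 0 1 with hR
  set R' := (h * lM s' * nM x').1 0 1 with hR'
  obtain ⟨d1, d2⟩ := CTG_abs hb8 q1
  have e1 : h.1 0 1 = R - Q * x := by
    rw [a1, a2]
    ring
  have e2 : |h.1 0 1| ≤ 5 / 4 := by
    rw [e1]
    refine (abs_sub _ _).trans ?_
    rw [abs_mul]
    have : |Q| * |x| ≤ 9 / 8 * 1 := mul_le_mul d2 hx (abs_nonneg _) (by norm_num)
    linarith
  have e3 : Q * (x - x') = R - R' + h.1 0 1 * (s' - s) * x' := by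
    rw [a1, a2, c2]
    ring
  have e4 : |Q * (x - x')| ≤ 2 * (b * v) + 5 / 4 * l := by
    rw [e3]
    refine (abs_add_le _ _).trans ?_
    have f1 : |R - R'| ≤ b * v + b * v := (abs_sub _ _).trans (add_le_add q3 r3)
    have f2 : |h.1 0 1 * (s' - s) * x'| ≤ 5 / 4 * l := by
      rw [abs_mul, abs_mul]
      have g1 : |h.1 0 1| * |s' - s| ≤ 5 / 4 * l := mul_le_mul e2 hs (abs_nonneg _) (by norm_num)
      have g2 : |h.1 0 1| * |s' - s| * |x'| ≤ |h.1 0 1| * |s' - s| := mul_le_of_le_one_right (by positivity) hx'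
      linarith
    linarith
  rw [abs_mul, abs_of_pos (by linarith : (0 : ℝ) < Q)] at e4
  have e5 : 7 / 8 * |x - x'| ≤ Q * |x - x'| := mul_le_mul_of_nonneg_right d1 (abs_nonneg _)
  have e6 : (0 : ℝ) ≤ |x - x'| := abs_nonneg _
  nlinarith

open Classical in
theorem CTG_proof : CTG_stmt := by
  intro Γ hΓ
  obtain ⟨N₀, hN₀⟩ := HD2_fin Γ hΓ
  refine ⟨(N₀ : ℝ) + 1, by linarith [(Nat.cast_nonneg N₀ : (0 : ℝ) ≤ N₀)], ?_⟩
  intro b v ε l A g J hb hb8 hv hv1 hε hl hl4 hJ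
  have hbv0 : 0 < b * v := mul_pos hb hv
  have hbv : b * v ≤ 1 / 8 := by nlinarith
  let Fy : SL(2, ℝ) → Finset Γ := fun y => (hN₀ y g).1.toFinset
  let Jy : SL(2, ℝ) → Γ → Finset ℤ := fun y γ =>
    J.filter fun j => |(j : ℝ) * ε| ≤ 1 ∧ ∃ u ∈ Icc (0 : ℝ) 1, bq b (b * v) b (y⁻¹ * (γ : SL(2, ℝ)) * g * lM (l * u) * nM (j * ε))
  have hsub : J ⊆ A.biUnion fun y => (Fy y).biUnion fun γ => Jy y γ := by
    intro j hj
    obtain ⟨h1, u, hu, y, hy, γ, hq⟩ := hJ j hj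
    have hq' : bq b (b * v) b (y⁻¹ * (γ : SL(2, ℝ)) * g * lM (l * u) * nM (j * ε)) := by
      have e : y⁻¹ * (γ : SL(2, ℝ)) * g * lM (l * u) * nM (j * ε) = y⁻¹ * (γ : SL(2, ℝ)) * (g * lM (l * u) * nM (j * ε)) := by
        simp only [mul_assoc]
      rw [e]
      exact hq
    have hlu : |l * u| ≤ 1 := by
      rw [abs_of_nonneg (mul_nonneg hl hu.1)]
      have := hu.2
      have := hu.1
      nlinarith
    rw [Finset.mem_biUnion]
    refine ⟨y, hy, ?_⟩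
    rw [Finset.mem_biUnion]
    refine ⟨γ, ?_, ?_⟩
    · rw [Set.Finite.mem_toFinset]
      exact CTG_eight _ (l * u) (j * ε) b v hb hb8 hv hv1 hlu h1 hq'
    · rw [Finset.mem_filter]
      exact ⟨hj, h1, u, hu, hq'⟩
  have hD : 0 ≤ 4 * b * v / ε := by positivity
  have hone : ∀ y γ, ((Jy y γ).card : ℝ) ≤ 4 * b * v / ε + 1 := by
    intro y γ
    refine CTG_card _ _ hD fun i hi j hj => ?_
    rw [Finset.mem_filter] at hi hj
    obtain ⟨-, hi1, u, hu, hqi⟩ := hi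
    obtain ⟨-, hj1, u', hu', hqj⟩ := hj
    have hs : |l * u' - l * u| ≤ l := by
      rw [← mul_sub, abs_mul, abs_of_nonneg hl]
      have : |u' - u| ≤ 1 := abs_le.2 ⟨by linarith [hu'.1, hu.2], by linarith [hu'.2, hu.1]⟩
      exact mul_le_of_le_one_right hl this
    have h1 := CTG_dist (y⁻¹ * (γ : SL(2, ℝ)) * g) (l * u) (l * u') (i * ε) (j * ε) b v l hb hb8 hv hv1 hi1 hj1 hs hl4 hqi hqj
    rw [← sub_mul, abs_mul, abs_of_pos hε] at h1
    rw [le_div_iff₀ hε]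
    exact h1
  have hFy : ∀ y, ((Fy y).card : ℝ) ≤ (N₀ : ℝ) + 1 := by
    intro y
    have h1 : (Fy y).card ≤ N₀ := by
      have := (hN₀ y g).2
      rw [Set.ncard_eq_toFinset_card _ (hN₀ y g).1] at this
      exact this
    have h2 : ((Fy y).card : ℝ) ≤ N₀ := by exact_mod_cast h1
    linarith
  have h1 : (J.card : ℝ) ≤ ∑ y ∈ A, ∑ γ ∈ Fy y, ((Jy y γ).card : ℝ) := by
    have h2 : J.card ≤ ∑ y ∈ A, ∑ γ ∈ Fy y, (Jy y γ).card :=
      (Finset.card_le_card hsub).trans (Finset.card_biUnion_le.trans (Finset.sum_le_sum fun y _ => Finset.card_biUnion_le))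
    exact_mod_cast h2
  refine h1.trans ?_
  calc ∑ y ∈ A, ∑ γ ∈ Fy y, ((Jy y γ).card : ℝ) ≤ ∑ y ∈ A, ∑ γ ∈ Fy y, (4 * b * v / ε + 1) :=
        Finset.sum_le_sum fun y _ => Finset.sum_le_sum fun γ _ => hone y γ
    _ = ∑ y ∈ A, ((Fy y).card : ℝ) * (4 * b * v / ε + 1) := by
        refine Finset.sum_congr rfl fun y _ => ?_
        rw [Finset.sum_const, nsmul_eq_mul]
    _ ≤ ∑ y ∈ A, ((N₀ : ℝ) + 1) * (4 * b * v / ε + 1) :=
        Finset.sum_le_sum fun y _ => mul_le_mul_of_nonneg_right (hFy y) (by linarith)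
    _ = ((N₀ : ℝ) + 1) * A.card * (4 * b * v / ε + 1) := by
        rw [Finset.sum_const, nsmul_eq_mul]
        ring

end Pool.Agent.HF
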